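import Pool.Agent.Q26.FP.K

/-!
Flaprojective periodicity: in an acyclic complex of `A/R`-flaprojective modules with flat modules
of cocycles, the modules of cocycles are `A/R`-flaprojective.
-/

namespace Pool.Agent.Results.MP_342ba6_al.FlaprojectivePeriodicity

universe u

/-- A left module `F` over an arbitrary ring `S` is flat if every linear relation in `F` is a
consequence of linear relations in `S` (the equational criterion of flatness). -/
def IsFlat (S F : Type u) [Ring S] [AddCommGroup F] [Module S F] : Prop :=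
  ∀ (n : ℕ) (r : Fin n → S) (x : Fin n → F), ∑ i, r i • x i = 0 →
    ∃ (m : ℕ) (a : Fin n → Fin m → S) (y : Fin m → F),
      (∀ i, x i = ∑ j, a i j • y j) ∧ ∀ j, ∑ i, r i * a i j = 0

/-- For commutative rings this is flatness in the sense of Mathlib (tensor products). -/
theorem isFlat_iff (S F : Type u) [CommRing S] [AddCommGroup F] [Module S F] :
    IsFlat S F ↔ Module.Flat S F := by
  rw [Module.Flat.iff_forall_isTrivialRelation]
  constructor
  · intro h l f x hfx
    obtain ⟨m, a, y, h1, h2⟩ := h l f x hfx
    exact ⟨m, a, y, h1, h2⟩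
  · intro h n r x hrx
    obtain ⟨m, a, y, h1, h2⟩ := h hrx
    exact ⟨m, a, y, h1, h2⟩

/-- `Ext^1_S(F, C) = 0`: every short exact sequence `0 → C → Y → F → 0` of left `S`-modules
splits. -/
def ExtZero (S F C : Type u) [Ring S] [AddCommGroup F] [Module S F] [AddCommGroup C]
    [Module S C] : Prop :=
  ∀ (Y : Type u) [AddCommGroup Y] [Module S Y] (i : C →ₗ[S] Y) (p : Y →ₗ[S] F),
    Function.Injective i → Function.Surjective p → LinearMap.range i = LinearMap.ker p →
    ∃ s : F →ₗ[S] Y, p ∘ₗ s = LinearMap.id

/-- A left `S`-module `C` is cotorsion if `Ext^1_S(G, C) = 0` for every flat left module `G`. -/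
def IsCotorsion (S C : Type u) [Ring S] [AddCommGroup C] [Module S C] : Prop :=
  ∀ (G : Type u) [AddCommGroup G] [Module S G], IsFlat S G → ExtZero S G C

/-- A left `A`-module `F` is `A/R`-flaprojective if `Ext^1_A(F, C) = 0` for every left `A`-module
`C` whose underlying `R`-module is cotorsion. -/
def IsFlaprojective {R A : Type u} [Ring R] [Ring A] (f : R →+* A)
    (F : Type u) [AddCommGroup F] [Module A F] : Prop :=
  ∀ (C : Type u) [AddCommGroup C] [Module A C],
    @IsCotorsion R C _ _ (Module.compHom C f) → ExtZero A F C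

section lemmas

variable {R A : Type u} [Ring R] [Ring A]

/-- Lifting along an extension of `G` by `C` of homomorphisms from `F`, if
`Ext^1(F, C) = 0`. -/
theorem lift_of_extZero {F G C Y : Type u} [AddCommGroup F] [Module A F] [AddCommGroup G]
    [Module A G] [AddCommGroup C] [Module A C] [AddCommGroup Y] [Module A Y]
    (h : ExtZero A F C) (i : C →ₗ[A] Y) (p : Y →ₗ[A] G) (hi : Function.Injective i)
    (hp : Function.Surjective p) (hex : LinearMap.range i = LinearMap.ker p)
    (v : F →ₗ[A] G) : ∃ s : F →ₗ[A] Y, p ∘ₗ s = v := by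
  let Y' : Submodule A (Y × F) :=
    LinearMap.ker (p ∘ₗ LinearMap.fst A Y F - v ∘ₗ LinearMap.snd A Y F)
  have hY' : ∀ y x, (y, x) ∈ Y' ↔ p y = v x := by
    intro y x
    simp only [Y', LinearMap.mem_ker, LinearMap.sub_apply, LinearMap.coe_comp,
      Function.comp_apply, LinearMap.fst_apply, LinearMap.snd_apply, sub_eq_zero]
  have hpi : ∀ c, p (i c) = 0 := by
    intro c
    have : i c ∈ LinearMap.ker p := by rw [← hex]; exact ⟨c, rfl⟩
    exact this
  let i' : C →ₗ[A] Y' := LinearMap.codRestrict Y' (LinearMap.inl A Y F ∘ₗ i) (fun c => by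
    change (i c, (0 : F)) ∈ Y'
    rw [hY', hpi, map_zero])
  let p' : Y' →ₗ[A] F := LinearMap.snd A Y F ∘ₗ Y'.subtype
  have hi' : Function.Injective i' := by
    intro c c' hcc
    have : (i c, (0 : F)) = (i c', 0) := congrArg Subtype.val hcc
    exact hi (congrArg Prod.fst this)
  have hp' : Function.Surjective p' := by
    intro x
    obtain ⟨y, hy⟩ := hp (v x)
    exact ⟨⟨(y, x), (hY' y x).mpr hy⟩, rfl⟩
  have hex' : LinearMap.range i' = LinearMap.ker p' := by
    apply le_antisymm
    · rintro _ ⟨c, rfl⟩
      rfl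
    · rintro ⟨⟨y, x⟩, hyx⟩ hx
      have hx0 : x = 0 := hx
      subst hx0
      rw [hY', map_zero] at hyx
      have : y ∈ LinearMap.range i := by rw [hex]; exact hyx
      obtain ⟨c, rfl⟩ := this
      exact ⟨c, rfl⟩
  obtain ⟨s, hs⟩ := h Y' i' p' hi' hp' hex'
  refine ⟨LinearMap.fst A Y F ∘ₗ Y'.subtype ∘ₗ s, ?_⟩
  ext x
  have h1 : (s x : Y × F).2 = x := LinearMap.congr_fun hs x
  have h2 := (hY' (s x : Y × F).1 (s x : Y × F).2).mp (s x).2
  rw [h1] at h2
  exact h2

/-- Retracts of flaprojective modules are flaprojective. -/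
theorem IsFlaprojective.retract {f : R →+* A} {F G : Type u} [AddCommGroup F] [Module A F]
    [AddCommGroup G] [Module A G] (h : IsFlaprojective f F) (j : G →ₗ[A] F) (π : F →ₗ[A] G)
    (hπ : ∀ x, π (j x) = x) : IsFlaprojective f G := by
  intro C _ _ hC Y _ _ i p hi hp hex
  obtain ⟨s, hs⟩ := lift_of_extZero (h C hC) i p hi hp hex π
  refine ⟨s ∘ₗ j, ?_⟩
  ext x
  have := LinearMap.congr_fun hs (j x)
  rw [hπ] at this
  exact this

open DirectSum in
/-- Direct sums of flaprojective modules are flaprojective. -/
theorem isFlaprojective_directSum {f : R →+* A} {ι : Type} [DecidableEq ι] (F : ι → Type u)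
    [∀ n, AddCommGroup (F n)] [∀ n, Module A (F n)] (h : ∀ n, IsFlaprojective f (F n)) :
    IsFlaprojective f (⨁ n, F n) := by
  intro C _ _ hC Y _ _ i p hi hp hex
  choose s hs using fun n => lift_of_extZero (h n C hC) i p hi hp hex
    (DirectSum.lof A ι F n)
  refine ⟨DirectSum.toModule A ι Y s, ?_⟩
  apply DirectSum.linearMap_ext
  intro n
  ext x
  simp only [LinearMap.coe_comp, Function.comp_apply, DirectSum.toModule_lof,
    LinearMap.id_coe, id_eq]
  exact congrArg (fun z : ⨁ n, F n => z _) (LinearMap.congr_fun (hs n) x)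

end lemmas

open DirectSum in
/-- Let `f : R → A` be a ring homomorphism and `F` an acyclic complex, unbounded in both
directions, of `A/R`-flaprojective left `A`-modules whose modules of cocycles are flat. Then all
the modules of cocycles are `A/R`-flaprojective. -/
theorem result (R A : Type u) [Ring R] [Ring A] (f : R →+* A) (F : ℤ → Type u)
    [∀ n, AddCommGroup (F n)] [∀ n, Module A (F n)] (d : ∀ n, F n →ₗ[A] F (n + 1))
    (hexact : ∀ n, LinearMap.range (d n) = LinearMap.ker (d (n + 1)))
    (hF : ∀ n, IsFlaprojective f (F n)) (hZ : ∀ n, IsFlat A (LinearMap.ker (d n))) :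
    ∀ n, IsFlaprojective f (LinearMap.ker (d n)) := by
  classical
  let G := ⨁ n, F n
  let D : G →ₗ[A] G := DirectSum.toModule A ℤ G
    (fun n => DirectSum.lof A ℤ F (n + 1) ∘ₗ d n)
  have hDof : ∀ n (x : F n), D (DirectSum.lof A ℤ F n x) = DirectSum.lof A ℤ F (n + 1) (d n x) := by
    intro n x
    exact DirectSum.toModule_lof A n x
  have hDcomp : ∀ (x : G) n, (D x) (n + 1) = d n (x n) := by
    intro x n
    have h1 : DirectSum.component A ℤ F (n + 1) ∘ₗ D = d n ∘ₗ DirectSum.component A ℤ F n := by
      apply DirectSum.linearMap_ext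
      intro m
      ext y
      simp only [LinearMap.coe_comp, Function.comp_apply]
      rw [hDof]
      by_cases hmn : m = n
      · subst hmn
        rw [DirectSum.component.lof_self, DirectSum.component.lof_self]
      · have hmn' : m + 1 ≠ n + 1 := fun h => hmn (by omega)
        rw [DirectSum.component.of, DirectSum.component.of, dif_neg hmn', dif_neg hmn, map_zero]
    exact LinearMap.congr_fun h1 x
  have hdd : ∀ n (x : F n), d (n + 1) (d n x) = 0 := by
    intro n x
    have : d n x ∈ LinearMap.ker (d (n + 1)) := by rw [← hexact]; exact ⟨x, rfl⟩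
    exact this
  have hDD : ∀ x, D (D x) = 0 := by
    intro x
    have h1 : D ∘ₗ D = 0 := by
      apply DirectSum.linearMap_ext
      intro n
      apply LinearMap.ext
      intro y
      simp only [LinearMap.coe_comp, Function.comp_apply, hDof, hdd, map_zero,
        LinearMap.zero_apply]
    exact LinearMap.congr_fun h1 x
  have hlift : ∀ m (z : F m), d m z = 0 → ∃ y : G, D y = DirectSum.lof A ℤ F m z := by
    intro m z hz
    obtain ⟨n, rfl⟩ : ∃ n, m = n + 1 := ⟨m - 1, by ring⟩
    have : z ∈ LinearMap.range (d n) := by rw [hexact]; exact hz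
    obtain ⟨y, rfl⟩ := this
    exact ⟨DirectSum.lof A ℤ F n y, hDof n y⟩
  have hsum : ∀ x : G, ∑ n ∈ DFinsupp.support x, DirectSum.lof A ℤ F n (x n) = x := fun x =>
    DirectSum.sum_support_of x
  have hex : ∀ z, D z = 0 → ∃ x, D x = z := by
    intro z hz
    have h1 : ∀ n, d n (z n) = 0 := by
      intro n
      rw [← hDcomp, hz]
      rfl
    choose y hy using fun n => hlift n (z n) (h1 n)
    refine ⟨∑ n ∈ DFinsupp.support z, y n, ?_⟩
    rw [map_sum]
    conv_rhs => rw [← hsum z]
    exact Finset.sum_congr rfl fun n _ => hy n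
  have hker : ∀ (x : LinearMap.ker D) n, d n ((x : G) n) = 0 := by
    intro x n
    rw [← hDcomp, show D (x : G) = 0 from x.2]
    rfl
  -- flatness of the kernel
  have hflat : IsFlat A (LinearMap.ker D) := by
    apply Pool.Agent.Q26.FP.isFlat_of_fintype
    intro k r x hrx
    have hcomp : ∀ n : ℤ, ∑ i, r i • (⟨(x i : G) n, hker (x i) n⟩ : LinearMap.ker (d n)) = 0 := by
      intro n
      apply Subtype.ext
      have h1 := congrArg (fun z : LinearMap.ker D => DirectSum.component A ℤ F n (z : G)) hrx
      simp only [Submodule.coe_sum, Submodule.coe_smul, map_sum, map_smul,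
        Submodule.coe_zero, map_zero] at h1
      simp only [Submodule.coe_sum, Submodule.coe_smul, Submodule.coe_zero]
      exact h1
    choose m a y h1 h2 using fun n => hZ n k r _ (hcomp n)
    let s : Finset ℤ := Finset.univ.biUnion fun i => DFinsupp.support (x i : G)
    refine ⟨Σ n : s, Fin (m n), inferInstance, fun i nj => a nj.1 i nj.2,
      fun nj => ⟨DirectSum.lof A ℤ F nj.1 (y nj.1 nj.2), ?_⟩, ?_, fun nj => h2 nj.1 nj.2⟩
    · rw [LinearMap.mem_ker, hDof, show d nj.1 (y nj.1 nj.2 : F nj.1) = 0 from
        (y nj.1 nj.2).2, map_zero]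
    · intro i
      apply Subtype.ext
      rw [Submodule.coe_sum, Fintype.sum_sigma]
      have h3 : (x i : G) = ∑ n ∈ s, DirectSum.lof A ℤ F n ((x i : G) n) := by
        conv_lhs => rw [← hsum (x i : G)]
        apply Finset.sum_subset
        · exact Finset.subset_biUnion_of_mem
            (fun i => DFinsupp.support (x i : G)) (Finset.mem_univ i)
        · intro n _ hn
          rw [DFinsupp.notMem_support_iff.mp hn, map_zero]
      rw [h3, ← Finset.sum_coe_sort s]
      refine Finset.sum_congr rfl fun n _ => ?_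
      have h4 : (x i : G) n = ∑ j, a n i j • (y n j : F n) := by
        have := congrArg Subtype.val (h1 n i)
        simpa using this
      rw [h4, map_sum]
      refine Finset.sum_congr rfl fun j _ => ?_
      rw [map_smul]
      rfl
  have hGf : IsFlaprojective f G := isFlaprojective_directSum F hF
  have hmain : IsFlaprojective f (LinearMap.ker D) :=
    Pool.Agent.Q26.FP.main_diff f D hDD hex hflat hGf
  intro n
  refine hmain.retract
    (LinearMap.codRestrict (LinearMap.ker D) (DirectSum.lof A ℤ F n ∘ₗ
      (LinearMap.ker (d n)).subtype) (fun z => by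
        rw [LinearMap.mem_ker]
        change D (DirectSum.lof A ℤ F n (z : F n)) = 0
        rw [hDof, show d n (z : F n) = 0 from z.2, map_zero]))
    (LinearMap.codRestrict (LinearMap.ker (d n)) (DirectSum.component A ℤ F n ∘ₗ
      (LinearMap.ker D).subtype) (fun z => hker z n)) ?_
  intro z
  apply Subtype.ext
  change DirectSum.component A ℤ F n (DirectSum.lof A ℤ F n (z : F n)) = z
  rw [DirectSum.component.lof_self]

end Pool.Agent.Results.MP_342ba6_al.FlaprojectivePeriodicity
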